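import Pool.Agent.Lib.MP_af06f6_co.D.Cert

/-! Certificates of the numeric cells (generated), part 9. -/

namespace Pool.Agent.Lib.MP_af06f6_co

/-- cell [14752, 16384, 7815, 9459, 2731, 4588], 908 boxes -/
def certX38 : CertE :=
  ⟨536513, 59749, 27953, 0, ⟨1892956, 204956⟩, ⟨1042550, 338011⟩, ⟨1294885, 327426⟩, ⟨-711069, 524190⟩, ⟨0, 264321, 42835, -436676⟩, ⟨0, 2197287, -2505948⟩, ⟨13977, 393859, 793135⟩, ⟨2987, -284267, 1078811⟩,
    ⟨-173292, 3629225, -14671249, 12664550⟩,
    ⟨137705, -703587, 11688840, -12347159⟩,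
    ⟨-1679, 814527, -786366, -3059666⟩,
    ⟨31262, 1079588, 2920655, -5110848⟩,
    ⟨0, 1940325, -713405, 3671121⟩,
    ⟨0, 342301, -756897, 1518760⟩,
    ⟨0, 1917418, 523074, -2855982⟩,
    ⟨-24073, 105697, -7208379, 9961399⟩,
    ⟨19280, 970907, 6288421, -9487110⟩,
    ⟨-1032456, 2112225, -274189, 1187109⟩,
    ⟨794661, 2339122, -8386885, 10656348⟩,
    ⟨293529, -2768596, 8156207, -10251385⟩,
    ⟨0, 0, 0, 0⟩,
    ⟨0, 0, 0, 0⟩,
    ⟨0, 0, 0, 0⟩,
    ⟨0, 0, 0, 0⟩,
    ⟨0, 0, 0, 0⟩,
    [some 492, some 508, some 524, some 540, some 557, some 575, some 593, some 611, some 630, some 649, some 668, some 688, some 708, some 729, some 750, some 771, some 793, some 815, some 837, some 860, some 883, some 906, some 929, some 952, some 976, some 1000, some 1024, some 1049, some 1073, some 1098, some 1122, some 1147],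
    [some 8479, some 7119, some 6104, some 5317, some 4693, some 4188, some 3774, some 3431, some 3142, some 2898, some 2689, some 2509, some 2353, some 2216, some 2095, some 1988, some 1893, some 1808, some 1732, some 1662, some 1600, some 1543, some 1491, some 1443, some 1399, some 1359, some 1322, some 1287, some 1255, some 1226, some 1198, some 1172],
    [],
    []⟩
def domX38 : DomE := ⟨14752, 16384, 7815, 9459, 6787, 496, 2731, 4588⟩
theorem okX38 : certX38.ok domX38 = true := by decide +kernel
theorem okxX38 : certX38.okX domX38 = true := by decide +kernel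

/-- cell [14752, 16384, 7815, 9459, 4588, 13435], 1059 boxes -/
def certX39 : CertE :=
  ⟨545248, 0, 76419, 0, ⟨1422553, 501661⟩, ⟨1224507, 190870⟩, ⟨1695814, 794599⟩, ⟨-1522595, 293822⟩, ⟨0, 264835, 121166, -534616⟩, ⟨0, 2201725, -2531628⟩, ⟨107723, 429986, 1009274⟩, ⟨61928, -55163, 1102392⟩,
    ⟨-502467, 9099574, -38291978, 43406459⟩,
    ⟨409457, -5299116, 30742361, -37041582⟩,
    ⟨-40533, 1663156, -4849459, 2088055⟩,
    ⟨143575, -650350, 9685259, -13621807⟩,
    ⟨0, 1975756, -1298272, 4775877⟩,
    ⟨0, 131769, -923891, 2141310⟩,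
    ⟨0, 1926707, 641297, -3201546⟩,
    ⟨-65128, 2635239, -16207552, 17806258⟩,
    ⟨56772, -1004660, 12996228, -14233998⟩,
    ⟨-1953389, 753689, 6191764, -7554887⟩,
    ⟨2505210, -4025308, 9196370, -4843591⟩,
    ⟨-2073673, 13497641, -25977213, 11569550⟩,
    ⟨0, 0, 0, 0⟩,
    ⟨0, 0, 0, 0⟩,
    ⟨0, 0, 0, 0⟩,
    ⟨0, 0, 0, 0⟩,
    ⟨0, 0, 0, 0⟩,
    [some 1247, some 1285, some 1326, some 1367, some 1409, some 1452, some 1497, some 1542, some 1589, some 1636, some 1685, some 1734, some 1784, some 1835, some 1887, some 1940, some 1993, some 2047, some 2101, some 2157, some 2212, some 2268, some 2325, some 2382, some 2439, some 2497, some 2555, some 2614, some 2672, some 2731, some 2790, some 2849],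
    [none, none, some 12929, some 11344, some 10133, some 9166, some 8373, some 7709, some 7144, some 6658, some 6236, some 5866, some 5540, some 5251, some 4994, some 4763, some 4555, some 4367, some 4197, some 4042, some 3900, some 3771, some 3652, some 3542, some 3441, some 3348, some 3261, some 3180, some 3105, some 3035, some 2970, some 2908],
    [],
    []⟩
def domX39 : DomE := ⟨14752, 16384, 7815, 9459, 6787, 1267, 4588, 0⟩
theorem okX39 : certX39.ok domX39 = true := by decide +kernel
theorem okxX39 : certX39.okX domX39 = true := by decide +kernel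

end Pool.Agent.Lib.MP_af06f6_co
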